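import Mathlib

/-!
# MP_f8f5a4_an: every generalized Bratteli diagram has an order generating a Borel Vershik map

Answer to Q1: yes. Since the maximal and the minimal paths form closed sets, it is enough to find
an order for which there are as many infinite maximal as infinite minimal paths (then the Vershik
map, a homeomorphism off these sets, extends by a Borel isomorphism between them; this is proved
here as well). For each vertex `v` outside level `0` mark two incoming edges `a_v`, `c_v`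
(different if possible) and, for `b : W → ZMod 2`, let `X b` be the set of infinite paths whose
edges are `a_v` if `b v = 0` and `c_v` if `b v = 1`. For an order which puts one of `a_v`, `c_v`
on top and the other at the bottom as dictated by `b`, the maximal paths are `X b` and the minimal
paths are `X (1 + b)`. Changing `b` at finitely many vertices does not change the cardinality of
`X b`, the set of `b` with at least `k` elements in `X b` and that with `X b` uncountable are
analytic, hence measurable for the Haar measure, so by the zero-one law the cardinality of `X b` is almost surely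
constant; as `b ↦ 1 + b` preserves the measure, some `b` has `X b` and `X (1 + b)` of the same
cardinality.
-/

open MeasureTheory Set Filter Topology

namespace Pool.Agent.Results.MP_f8f5a4_an.BorelVershik

/-! ### analytic sets are null measurable -/

lemma capacity {β : Type*} [TopologicalSpace β] [T2Space β] [FirstCountableTopology β]
    [MeasurableSpace β] [OpensMeasurableSpace β] (μ : Measure β) [IsFiniteMeasure μ]
    (f : (ℕ → ℕ) → β) (hf : Continuous f) (c : ENNReal) (hc : c < μ (range f)) :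
    ∃ K ⊆ range f, MeasurableSet K ∧ c ≤ μ K := by
  classical
  let B : ℕ → (ℕ → ℕ) → Set (ℕ → ℕ) := fun n k => {x | ∀ i < n, x i ≤ k i}
  have hstep : ∀ n (k : ℕ → ℕ), c < μ (f '' B n k) →
      ∃ m, c < μ (f '' B (n+1) (Function.update k n m)) := by
    intro n k h
    have hU : f '' B n k = ⋃ m, f '' B (n+1) (Function.update k n m) := by
      ext y
      simp only [Set.mem_iUnion, Set.mem_image]
      constructor
      · rintro ⟨x, hx, rfl⟩
        refine ⟨x n, x, ?_, rfl⟩
        intro i hi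
        rcases Nat.lt_succ_iff_lt_or_eq.mp hi with h1 | h1
        · rw [Function.update_of_ne h1.ne]; exact hx i h1
        · subst h1; simp
      · rintro ⟨m, x, hx, rfl⟩
        refine ⟨x, ?_, rfl⟩
        intro i hi
        have := hx i (by omega)
        rwa [Function.update_of_ne hi.ne] at this
    have hmono : Monotone (fun m => f '' B (n+1) (Function.update k n m)) := by
      intro m m' hm
      apply Set.image_mono
      intro x hx i hi
      have := hx i hi
      by_cases h1 : i = n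
      · subst h1; simp only [Function.update_self] at this ⊢; exact this.trans hm
      · rw [Function.update_of_ne h1] at this ⊢; exact this
    rw [hU, hmono.measure_iUnion] at h
    exact lt_iSup_iff.mp h
  choose m hm using hstep
  let K : ∀ n : ℕ, {k : ℕ → ℕ // c < μ (f '' B n k)} := fun n => Nat.rec
    ⟨fun _ => 0, by
      have : B 0 (fun _ => 0) = Set.univ := by ext x; simp [B]
      rw [this, Set.image_univ]; exact hc⟩
    (fun n k => ⟨Function.update k.1 n (m n k.1 k.2), hm n k.1 k.2⟩) n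
  have hK : ∀ n, (K (n+1)).1 = Function.update (K n).1 n (m n (K n).1 (K n).2) := fun n => rfl
  let k : ℕ → ℕ := fun n => (K (n+1)).1 n
  have hstab : ∀ n j, n < j → (K j).1 n = k n := by
    intro n j hj
    induction j with
    | zero => omega
    | succ j ih =>
      rcases Nat.lt_succ_iff_lt_or_eq.mp hj with h1 | h1
      · rw [hK, Function.update_of_ne h1.ne]; exact ih h1
      · subst h1; rfl
  have hB : ∀ n, c < μ (f '' B n k) := by
    intro n
    have : B n k = B n (K n).1 := by
      ext x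
      constructor
      · intro h i hi; rw [hstab i n hi]; exact h i hi
      · intro h i hi; rw [← hstab i n hi]; exact h i hi
    rw [this]; exact (K n).2
  let C : Set (ℕ → ℕ) := {x | ∀ i, x i ≤ k i}
  refine ⟨⋂ n, closure (f '' B n k), ?_, MeasurableSet.iInter fun n =>
    isClosed_closure.measurableSet, ?_⟩
  · intro y hy
    rw [Set.mem_iInter] at hy
    obtain ⟨U, hU⟩ := (𝓝 y).exists_antitone_basis
    have hz : ∀ n, ∃ z ∈ B n k, f z ∈ U n := by
      intro n
      have h1 := hy n
      rw [mem_closure_iff_nhds] at h1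
      obtain ⟨_, h2, z, hz, rfl⟩ := h1 (U n) (hU.toHasBasis.mem_of_mem trivial)
      exact ⟨z, hz, h2⟩
    choose z hz1 hz2 using hz
    have htend : Tendsto (fun n => f (z n)) atTop (𝓝 y) := hU.tendsto hz2
    let L : ℕ → ℕ := fun i => k i + ∑ n ∈ Finset.range (i+1), z n i
    have hcomp : IsCompact (Set.pi Set.univ (fun i => Set.Iic (L i))) :=
      isCompact_univ_pi fun i => (Set.finite_Iic _).isCompact
    have hzL : ∀ n, z n ∈ Set.pi Set.univ (fun i => Set.Iic (L i)) := by
      intro n i _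
      simp only [Set.mem_Iic]
      by_cases h : i < n
      · exact (hz1 n i h).trans (Nat.le_add_right _ _)
      · refine le_trans ?_ (Nat.le_add_left _ _)
        exact Finset.single_le_sum (f := fun n => z n i) (fun _ _ => Nat.zero_le _)
          (Finset.mem_range.mpr (by omega))
    obtain ⟨w, -, φ, hφ, hw⟩ := hcomp.tendsto_subseq hzL
    refine ⟨w, ?_⟩
    have h1 : Tendsto (fun n => f (z (φ n))) atTop (𝓝 (f w)) :=
      (hf.tendsto w).comp hw
    exact tendsto_nhds_unique h1 (htend.comp hφ.tendsto_atTop)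
  · have hanti : Antitone (fun n => closure (f '' B n k)) := by
      intro a b hab
      apply closure_mono
      apply Set.image_mono
      intro x hx i hi
      exact hx i (lt_of_lt_of_le hi hab)
    rw [hanti.measure_iInter (fun n => isClosed_closure.measurableSet.nullMeasurableSet)
      ⟨0, measure_ne_top _ _⟩]
    exact le_iInf fun n => (hB n).le.trans (measure_mono subset_closure)

lemma nullMeasurable_range {β : Type*} [TopologicalSpace β] [T2Space β]
    [FirstCountableTopology β]
    [MeasurableSpace β] [OpensMeasurableSpace β] (μ : Measure β) [IsFiniteMeasure μ]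
    (f : (ℕ → ℕ) → β) (hf : Continuous f) : NullMeasurableSet (range f) μ := by
  by_cases h0 : μ (range f) = 0
  · exact NullMeasurableSet.of_null h0
  obtain ⟨u, -, hu1, hu2⟩ := exists_seq_strictMono_tendsto' (pos_iff_ne_zero.mpr h0)
  have hK : ∀ n, ∃ K ⊆ range f, MeasurableSet K ∧ u n ≤ μ K := fun n =>
    capacity μ f hf (u n) (hu1 n).2
  choose K hK1 hK2 hK3 using hK
  have hsub : (⋃ n, K n) ⊆ range f := Set.iUnion_subset hK1
  have hle : μ (range f) ≤ μ (⋃ n, K n) := by
    refine le_of_tendsto' hu2 fun n => (hK3 n).trans (measure_mono (Set.subset_iUnion K n))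
  have hae := ae_eq_of_subset_of_measure_ge hsub hle
    (MeasurableSet.iUnion hK2).nullMeasurableSet (measure_ne_top _ _)
  exact (MeasurableSet.iUnion hK2).nullMeasurableSet.congr hae

lemma nullMeasurable_of_analytic {β : Type*} [TopologicalSpace β] [T2Space β]
    [FirstCountableTopology β]
    [MeasurableSpace β] [OpensMeasurableSpace β] (μ : Measure β) [IsFiniteMeasure μ]
    {s : Set β} (hs : AnalyticSet s) : NullMeasurableSet s μ := by
  rw [AnalyticSet_def] at hs
  rcases hs with rfl | ⟨f, hf, rfl⟩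
  · exact MeasurableSet.empty.nullMeasurableSet
  · exact nullMeasurable_range μ f hf

/-- a null measurable set of `0`-`1` sequences which is invariant under finite changes is null or
conull -/
lemma zero_one {W : Type} [Countable W] (μ : Measure (W → ZMod 2)) [μ.IsAddHaarMeasure]
    {s : Set (W → ZMod 2)} (hs : NullMeasurableSet s μ)
    (h : ∀ g : W → ZMod 2, g.support.Finite → ∀ b, b ∈ s → g + b ∈ s) :
    EventuallyConst s (ae μ) := by
  classical
  apply aeconst_of_dense_setOfPred_preimage_vadd_eq (M := W → ZMod 2) hs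
  intro g
  apply mem_closure_of_tendsto (f := fun F : Finset W => (fun w => if w ∈ F then g w else 0))
    (b := atTop)
  · rw [tendsto_pi_nhds]
    intro w
    apply tendsto_const_nhds.congr'
    filter_upwards [eventually_ge_atTop {w}] with F hF
    rw [if_pos (Finset.singleton_subset_iff.mp hF)]
  · refine Eventually.of_forall fun F => ?_
    have hfin : (fun w => if w ∈ F then g w else (0 : ZMod 2)).support.Finite := by
      apply F.finite_toSet.subset
      intro w hw
      by_contra hcon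
      exact hw (if_neg hcon)
    ext b
    simp only [Set.mem_preimage]
    constructor
    · intro hb
      have := h _ hfin _ hb
      have h2 : (fun w => if w ∈ F then g w else (0 : ZMod 2)) +
          ((fun w => if w ∈ F then g w else (0 : ZMod 2)) +ᵥ b) = b := by
        funext w
        simp only [vadd_eq_add, Pi.add_apply]
        rw [← add_assoc, ← two_mul, show (2 : ZMod 2) = 0 from rfl, zero_mul, zero_add]
      rwa [h2] at this
    · intro hb
      exact h _ hfin _ hb


/-! ### generalized Bratteli diagrams -/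

/-- A generalized Bratteli diagram. `V i` is the set of vertices of level `i`, `E i` the set of
edges from level `i` to level `i+1`. -/
structure Diagram where
  V : ℕ → Type
  E : ℕ → Type
  countV : ∀ i, Countable (V i)
  infV : ∀ i, Infinite (V i)
  countE : ∀ i, Countable (E i)
  s : ∀ i, E i → V i
  r : ∀ i, E i → V (i+1)
  s_surj : ∀ i (v : V i), ∃ e, s i e = v
  r_surj : ∀ i (v : V (i+1)), ∃ e, r i e = v
  r_fin : ∀ i (v : V (i+1)), {e | r i e = v}.Finite

attribute [instance] Diagram.countV Diagram.infV Diagram.countE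

namespace Diagram
variable (B : Diagram)

/-- infinite paths -/
abbrev Path : Type := {x : ∀ i, B.E i // ∀ i, B.r i (x i) = B.s (i+1) (x (i+1))}

/-- An order: a linear order on the set of incoming edges of every vertex outside level `0`. -/
def Order : Type := ∀ i (v : B.V (i+1)), LinearOrder {e : B.E i // B.r i e = v}

variable {B}

/-- `e` is the largest edge with its range -/
def Order.IsMax (O : B.Order) {i : ℕ} (e : B.E i) : Prop :=
  ∀ e' : {e' : B.E i // B.r i e' = B.r i e}, (O i (B.r i e)).le e' ⟨e, rfl⟩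

/-- `e` is the smallest edge with its range -/
def Order.IsMin (O : B.Order) {i : ℕ} (e : B.E i) : Prop :=
  ∀ e' : {e' : B.E i // B.r i e' = B.r i e}, (O i (B.r i e)).le ⟨e, rfl⟩ e'

/-- infinite maximal paths -/
def Order.Xmax (O : B.Order) : Set B.Path := {x | ∀ i, O.IsMax (x.1 i)}

/-- infinite minimal paths -/
def Order.Xmin (O : B.Order) : Set B.Path := {x | ∀ i, O.IsMin (x.1 i)}

end Diagram

/-- a finite type with two marked elements `p`, `q` carries a linear order with least element `p`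
and greatest element `q`, provided `p = q` only if there is just one element -/
lemma exists_order {α : Type} [Finite α] (p q : α) (h : p = q → ∀ x, x = p) :
    ∃ lo : LinearOrder α, (∀ x, lo.le x q) ∧ (∀ x, lo.le p x) := by
  classical
  obtain ⟨n, ⟨e⟩⟩ := Finite.exists_equiv_fin α
  have hn : 0 < n := Fin.pos (e p)
  obtain ⟨m, rfl⟩ : ∃ m, n = m + 1 := ⟨n - 1, by omega⟩
  by_cases hpq : p = q
  · refine ⟨LinearOrder.lift' e e.injective, fun x => ?_, fun x => ?_⟩
    · show e x ≤ e q
      rw [h hpq x, hpq]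
    · show e p ≤ e x
      rw [h hpq x]
  let e1 : α ≃ Fin (m+1) := e.trans (Equiv.swap (e p) 0)
  have h1 : e1 p = 0 := by simp [e1]
  have h1q : e1 q ≠ 0 := by rw [← h1]; exact fun h => hpq (e1.injective h).symm
  let e2 : α ≃ Fin (m+1) := e1.trans (Equiv.swap (e1 q) (Fin.last m))
  have h2 : e2 q = Fin.last m := by simp [e2]
  have h3 : e2 p = 0 := by
    have hl : (0 : Fin (m+1)) ≠ Fin.last m := by
      intro h0
      have hm : m = 0 := by
        have := congrArg Fin.val h0
        simpa using this.symm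
      subst hm
      exact h1q (Fin.ext (by have := (e1 q).isLt; simp only [Fin.val_zero]; omega))
    show Equiv.swap (e1 q) (Fin.last m) (e1 p) = 0
    rw [h1, Equiv.swap_apply_of_ne_of_ne (Ne.symm h1q) hl]
  refine ⟨LinearOrder.lift' e2 e2.injective, fun x => ?_, fun x => ?_⟩
  · show e2 x ≤ e2 q
    rw [h2]; exact Fin.le_last _
  · show e2 p ≤ e2 x
    rw [h3]; exact Fin.zero_le _

namespace Diagram
variable (B : Diagram)

/-- the vertices outside level 0 -/
abbrev W : Type := Σ i, B.V (i+1)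

lemma exists_pair (w : B.W) : ∃ a c : B.E w.1, B.r w.1 a = w.2 ∧ B.r w.1 c = w.2 ∧
    (a = c → ∀ e, B.r w.1 e = w.2 → e = a) := by
  obtain ⟨i, v⟩ := w
  obtain ⟨a, ha⟩ := B.r_surj i v
  by_cases h : ∃ c, B.r i c = v ∧ c ≠ a
  · obtain ⟨c, hc, hca⟩ := h
    exact ⟨a, c, ha, hc, fun h => absurd h.symm hca⟩
  · push Not at h
    exact ⟨a, a, ha, ha, fun _ e he => h e he⟩

/-- first marked edge -/
noncomputable def ea (w : B.W) : B.E w.1 := (B.exists_pair w).choose

/-- second marked edge -/
noncomputable def ec (w : B.W) : B.E w.1 := (B.exists_pair w).choose_spec.choose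

lemma ea_r (w : B.W) : B.r w.1 (B.ea w) = w.2 := (B.exists_pair w).choose_spec.choose_spec.1
lemma ec_r (w : B.W) : B.r w.1 (B.ec w) = w.2 := (B.exists_pair w).choose_spec.choose_spec.2.1
lemma ea_ec (w : B.W) (h : B.ea w = B.ec w) : ∀ e, B.r w.1 e = w.2 → e = B.ea w :=
  (B.exists_pair w).choose_spec.choose_spec.2.2 h

/-- the maximal edge into `w` for the choice `b` -/
noncomputable def me (b : B.W → ZMod 2) (w : B.W) : B.E w.1 := if b w = 0 then B.ea w else B.ec w

lemma me_r (b : B.W → ZMod 2) (w : B.W) : B.r w.1 (B.me b w) = w.2 := by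
  unfold me; split_ifs
  · exact B.ea_r w
  · exact B.ec_r w

/-- sequences of edges which form a path of maximal edges from level `n` on -/
def Q (b : B.W → ZMod 2) (n : ℕ) (x : ∀ i, B.E i) : Prop :=
  ∀ i ≥ n, B.r i (x i) = B.s (i+1) (x (i+1)) ∧ x i = B.me b ⟨i, B.r i (x i)⟩

/-- the maximal paths for the choice `b` -/
def X (b : B.W → ZMod 2) : Set (∀ i, B.E i) := {x | B.Q b 0 x}

lemma extend (b : B.W → ZMod 2) (n : ℕ) : ∀ x : ∀ i, B.E i, B.Q b n x →
    ∃ y, B.Q b 0 y ∧ ∀ i ≥ n, y i = x i := by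
  classical
  induction n with
  | zero => exact fun x hx => ⟨x, hx, fun i _ => rfl⟩
  | succ n ih =>
    intro x hx
    let e : B.E n := B.me b ⟨n, B.s (n+1) (x (n+1))⟩
    have he : B.r n e = B.s (n+1) (x (n+1)) := B.me_r b ⟨n, B.s (n+1) (x (n+1))⟩
    obtain ⟨y, hy1, hy2⟩ := ih (Function.update x n e) (by
      intro i hi
      rcases Nat.eq_or_lt_of_le hi with h | h
      · subst h
        rw [Function.update_self, Function.update_of_ne (by omega)]
        refine ⟨he, ?_⟩
        rw [he]
      · rw [Function.update_of_ne (by omega), Function.update_of_ne (by omega)]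
        exact hx i h)
    refine ⟨y, hy1, fun i hi => ?_⟩
    rw [hy2 i (by omega), Function.update_of_ne (by omega)]

lemma unique (b : B.W → ZMod 2) {x y : ∀ i, B.E i} (hx : B.Q b 0 x) (hy : B.Q b 0 y) (n : ℕ)
    (h : ∀ i ≥ n, x i = y i) : x = y := by
  induction n with
  | zero => funext i; exact h i (Nat.zero_le _)
  | succ n ih =>
    apply ih
    intro i hi
    rcases Nat.eq_or_lt_of_le hi with h1 | h1
    · subst h1
      have e1 := hx n (Nat.zero_le _)
      have e2 := hy n (Nat.zero_le _)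
      have e3 : B.r n (x n) = B.r n (y n) := by
        rw [e1.1, e2.1, h (n+1) le_rfl]
      rw [e1.2, e2.2, e3]
    · exact h i h1

lemma card_le (b b' : B.W → ZMod 2) (h : {w | b w ≠ b' w}.Finite) :
    Cardinal.mk (B.X b) ≤ Cardinal.mk (B.X b') := by
  classical
  obtain ⟨N, hN⟩ : ∃ N, ∀ w : B.W, b w ≠ b' w → w.1 < N := by
    obtain ⟨N, hN⟩ := (h.image (fun w : B.W => w.1)).bddAbove
    exact ⟨N + 1, fun w hw => Nat.lt_succ_of_le (hN ⟨w, hw, rfl⟩)⟩
  have hQ : ∀ x : B.X b, B.Q b' N x.1 := by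
    intro x i hi
    obtain ⟨h1, h2⟩ := x.2 i (Nat.zero_le _)
    refine ⟨h1, ?_⟩
    rw [h2]
    have : b ⟨i, B.r i (x.1 i)⟩ = b' ⟨i, B.r i (x.1 i)⟩ := by
      by_contra hcon
      have := hN _ hcon
      simp only at this
      omega
    rw [← h2]
    conv_lhs => rw [h2]
    unfold me
    rw [this]
  choose y hy1 hy2 using fun x : B.X b => B.extend b' N x.1 (hQ x)
  refine Cardinal.mk_le_of_injective (f := fun x => (⟨y x, hy1 x⟩ : B.X b')) ?_
  intro x x' hxx
  have h1 : y x = y x' := congrArg Subtype.val hxx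
  apply Subtype.ext
  apply B.unique b x.2 x'.2 N
  intro i hi
  rw [← hy2 x i hi, ← hy2 x' i hi, h1]

lemma card_eq (b b' : B.W → ZMod 2) (h : {w | b w ≠ b' w}.Finite) :
    Cardinal.mk (B.X b) = Cardinal.mk (B.X b') :=
  le_antisymm (B.card_le b b' h) (B.card_le b' b (by
    convert h using 2
    ext w
    exact ne_comm))


/-! ### topology and measurability -/

instance (i : ℕ) : TopologicalSpace (B.E i) := ⊥
instance (i : ℕ) : DiscreteTopology (B.E i) := ⟨rfl⟩
instance (i : ℕ) : MeasurableSpace (B.E i) := ⊤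
instance (i : ℕ) : DiscreteMeasurableSpace (B.E i) := ⟨fun _ => trivial⟩
instance (i : ℕ) : BorelSpace (B.E i) := ⟨by
  rw [borel_eq_top_of_discrete]; rfl⟩

/-- the space of all sequences of edges -/
abbrev T : Type := ∀ i, B.E i

lemma isClosed_X (b : B.W → ZMod 2) : IsClosed (B.X b) := by
  have : B.X b = ⋂ i, (fun x : B.T => (x i, x (i+1))) ⁻¹'
      {q : B.E i × B.E (i+1) | B.r i q.1 = B.s (i+1) q.2 ∧ q.1 = B.me b ⟨i, B.r i q.1⟩} := by
    ext x
    simp only [X, Q, Set.mem_ofPred_eq, Set.mem_iInter, Set.mem_preimage]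
    exact ⟨fun h i => h i (Nat.zero_le _), fun h i _ => h i⟩
  rw [this]
  apply isClosed_iInter
  intro i
  apply IsClosed.preimage
  · fun_prop
  · exact isClosed_discrete _

section meas
variable {ι : Type} [Countable ι]

lemma meas_coord (j : ι) (i : ℕ) (e : B.E i) :
    MeasurableSet {p : (B.W → ZMod 2) × (ι → B.T) | p.2 j i = e} := by
  have h : Measurable (fun p : (B.W → ZMod 2) × (ι → B.T) => p.2 j i) := by fun_prop
  exact h (MeasurableSet.of_discrete (s := {e}))

lemma meas_agree (j j' : ι) (i : ℕ) :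
    MeasurableSet {p : (B.W → ZMod 2) × (ι → B.T) | p.2 j i = p.2 j' i} := by
  have : {p : (B.W → ZMod 2) × (ι → B.T) | p.2 j i = p.2 j' i}
      = ⋃ e : B.E i, {p | p.2 j i = e} ∩ {p | p.2 j' i = e} := by
    ext p
    simp only [Set.mem_ofPred_eq, Set.mem_iUnion, Set.mem_inter_iff]
    exact ⟨fun h => ⟨p.2 j i, rfl, h.symm⟩, fun ⟨e, h1, h2⟩ => h1.trans h2.symm⟩
  rw [this]
  exact MeasurableSet.iUnion fun e => (B.meas_coord j i e).inter (B.meas_coord j' i e)

lemma meas_ne (j j' : ι) :
    MeasurableSet {p : (B.W → ZMod 2) × (ι → B.T) | p.2 j ≠ p.2 j'} := by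
  have : {p : (B.W → ZMod 2) × (ι → B.T) | p.2 j ≠ p.2 j'}
      = (⋂ i, {p : (B.W → ZMod 2) × (ι → B.T) | p.2 j i = p.2 j' i})ᶜ := by
    ext p
    simp only [Set.mem_ofPred_eq, Set.mem_compl_iff, Set.mem_iInter, ne_eq, funext_iff]
  rw [this]
  exact (MeasurableSet.iInter fun i => B.meas_agree j j' i).compl

lemma meas_cond (j : ι) (i : ℕ) :
    MeasurableSet {p : (B.W → ZMod 2) × (ι → B.T) |
      B.r i (p.2 j i) = B.s (i+1) (p.2 j (i+1)) ∧ p.2 j i = B.me p.1 ⟨i, B.r i (p.2 j i)⟩} := by
  have : {p : (B.W → ZMod 2) × (ι → B.T) |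
      B.r i (p.2 j i) = B.s (i+1) (p.2 j (i+1)) ∧ p.2 j i = B.me p.1 ⟨i, B.r i (p.2 j i)⟩}
      = ⋃ e : B.E i, ⋃ e' : B.E (i+1), ({p | p.2 j i = e} ∩ {p | p.2 j (i+1) = e'}) ∩
        {p | B.r i e = B.s (i+1) e' ∧ e = B.me p.1 ⟨i, B.r i e⟩} := by
    ext p
    simp only [Set.mem_ofPred_eq, Set.mem_iUnion, Set.mem_inter_iff]
    constructor
    · intro h
      exact ⟨p.2 j i, p.2 j (i+1), ⟨rfl, rfl⟩, h⟩
    · rintro ⟨e, e', ⟨h1, h2⟩, h3⟩
      rw [h1, h2]; exact h3
  rw [this]
  refine MeasurableSet.iUnion fun e => MeasurableSet.iUnion fun e' =>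
    ((B.meas_coord j i e).inter (B.meas_coord j (i+1) e')).inter ?_
  have h : Measurable (fun p : (B.W → ZMod 2) × (ι → B.T) => p.1 ⟨i, B.r i e⟩) := by fun_prop
  exact h (MeasurableSet.of_discrete (s := {z : ZMod 2 | B.r i e = B.s (i+1) e' ∧
    e = if z = 0 then B.ea ⟨i, B.r i e⟩ else B.ec ⟨i, B.r i e⟩}))

lemma meas_all : MeasurableSet {p : (B.W → ZMod 2) × (ι → B.T) | ∀ j, p.2 j ∈ B.X p.1} := by
  have : {p : (B.W → ZMod 2) × (ι → B.T) | ∀ j, p.2 j ∈ B.X p.1}
      = ⋂ j, ⋂ i, {p : (B.W → ZMod 2) × (ι → B.T) |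
      B.r i (p.2 j i) = B.s (i+1) (p.2 j (i+1)) ∧ p.2 j i = B.me p.1 ⟨i, B.r i (p.2 j i)⟩} := by
    ext p
    simp only [X, Q, Set.mem_ofPred_eq, Set.mem_iInter]
    exact ⟨fun h j i => h j i (Nat.zero_le _), fun h j i _ => h j i⟩
  rw [this]
  exact MeasurableSet.iInter fun j => MeasurableSet.iInter fun i => B.meas_cond j i

end meas

/-- at least `k` maximal paths -/
def Ak (k : ℕ) : Set (B.W → ZMod 2) := {b | (k : Cardinal) ≤ Cardinal.mk (B.X b)}

/-- uncountably many maximal paths -/
def U : Set (B.W → ZMod 2) := {b | ¬ (B.X b).Countable}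

lemma analytic_Ak (k : ℕ) : AnalyticSet (B.Ak k) := by
  have : B.Ak k = Prod.fst '' {p : (B.W → ZMod 2) × (Fin k → B.T) |
      (∀ j, p.2 j ∈ B.X p.1) ∧ ∀ j j', j ≠ j' → p.2 j ≠ p.2 j'} := by
    ext b
    simp only [Ak, Set.mem_ofPred_eq, Set.mem_image]
    constructor
    · intro h
      have h1 : Cardinal.mk (Fin k) ≤ Cardinal.mk (B.X b) := by rw [Cardinal.mk_fin]; exact h
      obtain ⟨f⟩ := Cardinal.le_def _ _ |>.mp h1
      refine ⟨(b, fun j => (f j).1), ⟨fun j => (f j).2, fun j j' hjj h2 => hjj ?_⟩, rfl⟩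
      exact f.injective (Subtype.ext h2)
    · rintro ⟨⟨b', x⟩, ⟨h1, h2⟩, rfl⟩
      have h3 : Cardinal.mk (Fin k) ≤ Cardinal.mk (B.X b') :=
        Cardinal.mk_le_of_injective (f := fun j => (⟨x j, h1 j⟩ : B.X b')) (by
          intro j j' h
          by_contra hne
          exact h2 j j' hne (congrArg Subtype.val h))
      rwa [Cardinal.mk_fin] at h3
  rw [this]
  apply MeasurableSet.analyticSet_image _ measurable_fst
  have h2 : {p : (B.W → ZMod 2) × (Fin k → B.T) |
      (∀ j, p.2 j ∈ B.X p.1) ∧ ∀ j j', j ≠ j' → p.2 j ≠ p.2 j'}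
      = {p | ∀ j, p.2 j ∈ B.X p.1} ∩ ⋂ j, ⋂ j', ⋂ (_ : j ≠ j'), {p | p.2 j ≠ p.2 j'} := by
    ext p
    simp only [Set.mem_ofPred_eq, Set.mem_inter_iff, Set.mem_iInter]
  rw [h2]
  exact B.meas_all.inter (MeasurableSet.iInter fun j => MeasurableSet.iInter fun j' =>
    MeasurableSet.iInter fun _ => B.meas_ne j j')

lemma cantor_near (p : ℕ → Bool) (O : Set (ℕ → Bool)) (hO : IsOpen O) (hp : p ∈ O) :
    ∃ q ∈ O, q ≠ p := by
  have h : Tendsto (fun n => Function.update p n (!(p n))) atTop (𝓝 p) := by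
    rw [tendsto_pi_nhds]
    intro i
    apply tendsto_const_nhds.congr'
    filter_upwards [eventually_gt_atTop i] with n hn
    rw [Function.update_of_ne (by omega)]
  obtain ⟨n, hn⟩ := (h.eventually (hO.mem_nhds hp)).exists
  refine ⟨_, hn, fun h => ?_⟩
  have := congrFun h n
  simp at this

lemma uncountable_iff (b : B.W → ZMod 2) : ¬ (B.X b).Countable ↔
    ∃ x : ℕ → B.T, (∀ n, x n ∈ B.X b) ∧
      ∀ n m, ∃ l, x l ≠ x n ∧ ∀ i < m, x l i = x n i := by
  constructor
  · intro h
    obtain ⟨f, hf1, hf2, hf3⟩ := (B.isClosed_X b).exists_nat_bool_injection_of_not_countable h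
    refine ⟨fun n => f (TopologicalSpace.denseSeq (ℕ → Bool) n), fun n => hf1 ⟨_, rfl⟩, ?_⟩
    intro n m
    set p := TopologicalSpace.denseSeq (ℕ → Bool) n with hp
    have hO : IsOpen (f ⁻¹' {z | ∀ i < m, z i = f p i}) := by
      apply IsOpen.preimage hf2
      have : {z : B.T | ∀ i < m, z i = f p i} = ⋂ i ∈ Finset.range m, {z | z i = f p i} := by
        ext z; simp
      rw [this]
      apply isOpen_biInter_finset
      intro i _
      exact (isOpen_discrete {f p i}).preimage (continuous_apply i)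
    obtain ⟨q, hq1, hq2⟩ := cantor_near p _ hO (by simp)
    have hO2 : IsOpen (f ⁻¹' {z | ∀ i < m, z i = f p i} ∩ {p}ᶜ) := hO.inter isOpen_compl_singleton
    obtain ⟨l, hl⟩ := (TopologicalSpace.denseRange_denseSeq (ℕ → Bool)).exists_mem_open hO2
      ⟨q, hq1, hq2⟩
    exact ⟨l, fun h => hl.2 (hf3 h), hl.1⟩
  · rintro ⟨x, hx1, hx2⟩ hc
    let _ := TopologicalSpace.upgradeIsCompletelyMetrizable B.T
    have hpre : Preperfect (Set.range x) := by
      rintro _ ⟨n, rfl⟩
      rw [accPt_iff_nhds]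
      intro V hV
      choose l hl1 hl2 using hx2 n
      have ht : Tendsto (fun m => x (l m)) atTop (𝓝 (x n)) := by
        rw [tendsto_pi_nhds]
        intro i
        apply tendsto_const_nhds.congr'
        filter_upwards [eventually_gt_atTop i] with m hm
        exact (hl2 m i hm).symm
      obtain ⟨m, hm⟩ := (ht.eventually hV).exists
      exact ⟨x (l m), ⟨hm, l m, rfl⟩, hl1 m⟩
    obtain ⟨f, hf1, -, hf3⟩ := hpre.perfect_closure.exists_nat_bool_injection
      ⟨x 0, subset_closure ⟨0, rfl⟩⟩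
    have hsub : closure (Set.range x) ⊆ B.X b :=
      closure_minimal (by rintro _ ⟨n, rfl⟩; exact hx1 n) (B.isClosed_X b)
    have h1 : (Set.range f).Countable := hc.mono (hf1.trans hsub)
    have h2 : Countable (ℕ → Bool) := by
      have := h1.to_subtype
      exact (Equiv.ofInjective f hf3).countable_iff.mpr this
    have h3 : Cardinal.mk (ℕ → Bool) ≤ Cardinal.aleph0 := Cardinal.mk_le_aleph0_iff.mpr h2
    simp only [Cardinal.mk_pi, Cardinal.mk_fintype, Fintype.card_bool, Cardinal.prod_const,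
      Cardinal.lift_id, Cardinal.mk_nat, Nat.cast_ofNat, Cardinal.lift_ofNat,
      Cardinal.lift_aleph0, Cardinal.two_power_aleph0] at h3
    exact absurd h3 (not_le.mpr Cardinal.aleph0_lt_continuum)

lemma analytic_U : AnalyticSet B.U := by
  have : B.U = Prod.fst '' {p : (B.W → ZMod 2) × (ℕ → B.T) |
      (∀ n, p.2 n ∈ B.X p.1) ∧ ∀ n m, ∃ l, p.2 l ≠ p.2 n ∧ ∀ i < m, p.2 l i = p.2 n i} := by
    ext b
    simp only [U, Set.mem_ofPred_eq, Set.mem_image, B.uncountable_iff b]
    constructor
    · rintro ⟨x, h1, h2⟩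
      exact ⟨(b, x), ⟨h1, h2⟩, rfl⟩
    · rintro ⟨⟨b', x⟩, ⟨h1, h2⟩, rfl⟩
      exact ⟨x, h1, h2⟩
  rw [this]
  apply MeasurableSet.analyticSet_image _ measurable_fst
  have h2 : {p : (B.W → ZMod 2) × (ℕ → B.T) |
      (∀ n, p.2 n ∈ B.X p.1) ∧ ∀ n m, ∃ l, p.2 l ≠ p.2 n ∧ ∀ i < m, p.2 l i = p.2 n i}
      = {p | ∀ j, p.2 j ∈ B.X p.1} ∩ ⋂ n, ⋂ m, ⋃ l, ({p | p.2 l ≠ p.2 n} ∩
        ⋂ i, ⋂ (_ : i < m), {p | p.2 l i = p.2 n i}) := by
    ext p
    simp only [Set.mem_ofPred_eq, Set.mem_inter_iff, Set.mem_iInter, Set.mem_iUnion]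
  rw [h2]
  exact B.meas_all.inter (MeasurableSet.iInter fun n => MeasurableSet.iInter fun m =>
    MeasurableSet.iUnion fun l => (B.meas_ne l n).inter (MeasurableSet.iInter fun i =>
      MeasurableSet.iInter fun _ => B.meas_agree l n i))


/-! ### an order with equally many maximal and minimal paths -/

lemma exists_choice : ∃ b : B.W → ZMod 2, Cardinal.mk (B.X b) = Cardinal.mk (B.X (1 + b)) := by
  classical
  let μ : Measure (B.W → ZMod 2) := Measure.addHaar
  have hinv : ∀ g : B.W → ZMod 2, g.support.Finite → ∀ b,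
      Cardinal.mk (B.X (g + b)) = Cardinal.mk (B.X b) := by
    intro g hg b
    apply B.card_eq
    apply hg.subset
    intro w hw hw0
    apply hw
    simp only [Pi.add_apply]
    rw [hw0, zero_add]
  have h1 : ∀ s : Set (B.W → ZMod 2), EventuallyConst s (ae μ) →
      ∀ᵐ b ∂μ, (b ∈ s ↔ 1 + b ∈ s) := by
    intro s hs
    rw [eventuallyConst_set] at hs
    have hq : Measure.QuasiMeasurePreserving (fun b : B.W → ZMod 2 => 1 + b) μ μ :=
      (measurePreserving_add_left μ (1 : B.W → ZMod 2)).quasiMeasurePreserving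
    rcases hs with hs | hs
    · filter_upwards [hs, hq.ae hs] with b hb1 hb2
      exact iff_of_true hb1 hb2
    · filter_upwards [hs, hq.ae hs] with b hb1 hb2
      exact iff_of_false hb1 hb2
  have hA : ∀ k, ∀ᵐ b ∂μ, (b ∈ B.Ak k ↔ 1 + b ∈ B.Ak k) := by
    intro k
    apply h1
    apply zero_one μ (nullMeasurable_of_analytic μ (B.analytic_Ak k))
    intro g hg b hb
    simp only [Ak, Set.mem_ofPred_eq] at hb ⊢
    rwa [hinv g hg b]
  have hU : ∀ᵐ b ∂μ, (b ∈ B.U ↔ 1 + b ∈ B.U) := by
    apply h1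
    apply zero_one μ (nullMeasurable_of_analytic μ B.analytic_U)
    intro g hg b hb
    simp only [U, Set.mem_ofPred_eq, ← Set.countable_coe_iff, ← Cardinal.mk_le_aleph0_iff] at hb ⊢
    rwa [hinv g hg b]
  obtain ⟨b, hb1, hb2⟩ := ((ae_all_iff.mpr hA).and hU).exists
  refine ⟨b, ?_⟩
  simp only [Ak, U, Set.mem_ofPred_eq] at hb1 hb2
  by_cases hc : (B.X b).Countable
  · have hc' : (B.X (1 + b)).Countable := by
      by_contra hcon
      exact (hb2.mpr hcon) hc
    have e1 : Cardinal.mk (B.X b) ≤ Cardinal.aleph0 := Cardinal.mk_le_aleph0_iff.mpr hc.to_subtype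
    have e2 : Cardinal.mk (B.X (1 + b)) ≤ Cardinal.aleph0 :=
      Cardinal.mk_le_aleph0_iff.mpr hc'.to_subtype
    rcases lt_or_ge (Cardinal.mk (B.X b)) Cardinal.aleph0 with h | h
    · obtain ⟨n, hn⟩ := Cardinal.lt_aleph0.mp h
      have h3 : (n : Cardinal) ≤ Cardinal.mk (B.X (1 + b)) := (hb1 n).mp hn.ge
      have h4 : ¬ ((n+1 : ℕ) : Cardinal) ≤ Cardinal.mk (B.X (1 + b)) := by
        intro h5
        have := (hb1 (n+1)).mpr h5
        rw [hn] at this
        have := Nat.cast_le.mp this
        omega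
      have h6 : Cardinal.mk (B.X (1 + b)) < Cardinal.aleph0 :=
        lt_of_lt_of_le (not_le.mp h4) (Cardinal.natCast_le_aleph0)
      obtain ⟨m, hm⟩ := Cardinal.lt_aleph0.mp h6
      rw [hm] at h3 h4
      rw [hn, hm]
      have h7 := Nat.cast_le.mp h3
      have h8 : ¬ n + 1 ≤ m := fun h => h4 (Nat.cast_le.mpr h)
      congr 1
      omega
    · rw [le_antisymm e1 h]
      refine le_antisymm ?_ e2
      rw [Cardinal.aleph0_le]
      intro n
      exact (hb1 n).mp (le_trans Cardinal.natCast_le_aleph0 h)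
  · have hc' : ¬ (B.X (1 + b)).Countable := hb2.mp hc
    have i1 : StandardBorelSpace (B.X b) := (B.isClosed_X b).measurableSet.standardBorel
    have i2 : StandardBorelSpace (B.X (1 + b)) := (B.isClosed_X _).measurableSet.standardBorel
    have e := PolishSpace.measurableEquivOfNotCountable (α := B.X b) (β := B.X (1 + b))
      (by rwa [Set.countable_coe_iff]) (by rwa [Set.countable_coe_iff])
    exact Cardinal.mk_congr e.toEquiv

variable {B}

lemma Order.isMax_iff (O : B.Order) {i : ℕ} {v : B.V (i+1)} (a : {e : B.E i // B.r i e = v}) :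
    O.IsMax a.1 ↔ ∀ c, (O i v).le c a := by
  obtain ⟨e, rfl⟩ := a
  exact Iff.rfl

lemma Order.isMin_iff (O : B.Order) {i : ℕ} {v : B.V (i+1)} (a : {e : B.E i // B.r i e = v}) :
    O.IsMin a.1 ↔ ∀ c, (O i v).le a c := by
  obtain ⟨e, rfl⟩ := a
  exact Iff.rfl

variable (B)

lemma exists_good_order : ∃ O : B.Order, Nonempty (O.Xmax ≃ O.Xmin) := by
  classical
  obtain ⟨b, hb⟩ := B.exists_choice
  have hord : ∀ i (v : B.V (i+1)), ∃ lo : LinearOrder {e : B.E i // B.r i e = v},
      (∀ x, lo.le x ⟨B.me b ⟨i, v⟩, B.me_r b ⟨i, v⟩⟩) ∧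
      (∀ x, lo.le ⟨B.me (1 + b) ⟨i, v⟩, B.me_r (1 + b) ⟨i, v⟩⟩ x) := by
    intro i v
    have : Finite {e : B.E i // B.r i e = v} := B.r_fin i v
    apply exists_order
    intro h x
    have h1 : B.me (1 + b) ⟨i, v⟩ = B.me b ⟨i, v⟩ := congrArg Subtype.val h
    have h2 : B.ea ⟨i, v⟩ = B.ec ⟨i, v⟩ := by
      unfold me at h1
      have h01 : b ⟨i, v⟩ = 0 ∨ b ⟨i, v⟩ = 1 := by
        generalize b ⟨i, v⟩ = z
        revert z; decide
      rcases h01 with h0 | h0
      · have hb1 : (1 + b) ⟨i, v⟩ ≠ 0 := by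
          show 1 + b ⟨i, v⟩ ≠ 0
          rw [h0]; decide
        rw [if_neg hb1, if_pos h0] at h1
        exact h1.symm
      · have hb1 : (1 + b) ⟨i, v⟩ = 0 := by
          show 1 + b ⟨i, v⟩ = 0
          rw [h0]; decide
        have hb0 : b ⟨i, v⟩ ≠ 0 := by rw [h0]; decide
        rw [if_pos hb1, if_neg hb0] at h1
        exact h1
    have h3 := B.ea_ec ⟨i, v⟩ h2
    apply Subtype.ext
    show x.1 = B.me (1 + b) ⟨i, v⟩
    exact (h3 x.1 x.2).trans (h3 _ (B.me_r (1 + b) ⟨i, v⟩)).symm
  choose O hO1 hO2 using hord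
  have hmax : ∀ i (e : B.E i), Order.IsMax (B := B) O e ↔ e = B.me b ⟨i, B.r i e⟩ := by
    intro i e
    constructor
    · intro h
      have h1 := h ⟨B.me b ⟨i, B.r i e⟩, B.me_r b ⟨i, B.r i e⟩⟩
      have h2 := hO1 i (B.r i e) ⟨e, rfl⟩
      exact congrArg Subtype.val ((O i (B.r i e)).le_antisymm _ _ h2 h1)
    · intro h c
      have h2 := hO1 i (B.r i e) c
      have h3 : (⟨e, rfl⟩ : {e' : B.E i // B.r i e' = B.r i e}) =
          ⟨B.me b ⟨i, B.r i e⟩, B.me_r b ⟨i, B.r i e⟩⟩ := Subtype.ext h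
      rw [h3]
      exact h2
  have hmin : ∀ i (e : B.E i), Order.IsMin (B := B) O e ↔ e = B.me (1 + b) ⟨i, B.r i e⟩ := by
    intro i e
    constructor
    · intro h
      have h1 := h ⟨B.me (1 + b) ⟨i, B.r i e⟩, B.me_r (1 + b) ⟨i, B.r i e⟩⟩
      have h2 := hO2 i (B.r i e) ⟨e, rfl⟩
      exact congrArg Subtype.val ((O i (B.r i e)).le_antisymm _ _ h1 h2)
    · intro h c
      have h2 := hO2 i (B.r i e) c
      have h3 : (⟨e, rfl⟩ : {e' : B.E i // B.r i e' = B.r i e}) =
          ⟨B.me (1 + b) ⟨i, B.r i e⟩, B.me_r (1 + b) ⟨i, B.r i e⟩⟩ := Subtype.ext h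
      rw [h3]
      exact h2
  have e1 : Order.Xmax (B := B) O ≃ B.X b :=
    { toFun := fun x => ⟨x.1.1, fun i _ => ⟨x.1.2 i, (hmax i _).mp (x.2 i)⟩⟩
      invFun := fun x => ⟨⟨x.1, fun i => (x.2 i (Nat.zero_le _)).1⟩,
        fun i => (hmax i _).mpr (x.2 i (Nat.zero_le _)).2⟩
      left_inv := fun x => rfl
      right_inv := fun x => rfl }
  have e2 : Order.Xmin (B := B) O ≃ B.X (1 + b) :=
    { toFun := fun x => ⟨x.1.1, fun i _ => ⟨x.1.2 i, (hmin i _).mp (x.2 i)⟩⟩
      invFun := fun x => ⟨⟨x.1, fun i => (x.2 i (Nat.zero_le _)).1⟩,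
        fun i => (hmin i _).mpr (x.2 i (Nat.zero_le _)).2⟩
      left_inv := fun x => rfl
      right_inv := fun x => rfl }
  obtain ⟨e3⟩ := Cardinal.eq.mp hb
  exact ⟨O, ⟨e1.trans (e3.trans e2.symm)⟩⟩


/-! ### the Vershik map -/

variable {B}

/-- `e'` is the successor of `e` among the edges with the same range -/
def Order.IsSucc (O : B.Order) {i : ℕ} (e e' : B.E i) : Prop :=
  ∃ (v : B.V (i+1)) (a c : {e : B.E i // B.r i e = v}), a.1 = e ∧ c.1 = e' ∧
    (O i v).lt a c ∧ ∀ d, ¬ ((O i v).lt a d ∧ (O i v).lt d c)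

/-- The Vershik map sends `x` to `y`: if `n` is least with `x_n` not maximal, then `y_n` is the
successor of `x_n`, `y_i = x_i` for `i > n`, and `y_i` is minimal for `i < n`. -/
def Order.Vershik (O : B.Order) (x y : B.Path) : Prop :=
  ∃ n, (∀ i < n, O.IsMax (x.1 i)) ∧ ¬ O.IsMax (x.1 n) ∧ O.IsSucc (x.1 n) (y.1 n) ∧
    (∀ i > n, y.1 i = x.1 i) ∧ ∀ i < n, O.IsMin (y.1 i)

/-- the reversed order -/
noncomputable def Order.rev (O : B.Order) : B.Order := fun i v =>
  letI := O i v
  LinearOrder.lift' (OrderDual.toDual : {e : B.E i // B.r i e = v} → _) (Equiv.injective _)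

lemma Order.rev_le (O : B.Order) {i : ℕ} {v : B.V (i+1)} (a c : {e : B.E i // B.r i e = v}) :
    (O.rev i v).le a c ↔ (O i v).le c a := Iff.rfl

lemma Order.rev_lt (O : B.Order) {i : ℕ} {v : B.V (i+1)} (a c : {e : B.E i // B.r i e = v}) :
    (O.rev i v).lt a c ↔ (O i v).lt c a := Iff.rfl

lemma Order.rev_isMax (O : B.Order) {i : ℕ} (e : B.E i) : O.rev.IsMax e ↔ O.IsMin e := Iff.rfl

lemma Order.rev_isMin (O : B.Order) {i : ℕ} (e : B.E i) : O.rev.IsMin e ↔ O.IsMax e := Iff.rfl

lemma Order.rev_succ (O : B.Order) {i : ℕ} (e e' : B.E i) (h : O.IsSucc e e') :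
    O.rev.IsSucc e' e := by
  obtain ⟨v, a, c, ha, hc, hlt, hno⟩ := h
  exact ⟨v, c, a, hc, ha, hlt, fun d hd => hno d ⟨hd.2, hd.1⟩⟩

lemma Order.succ_not_max (O : B.Order) {i : ℕ} {e e' : B.E i} (h : O.IsSucc e e') :
    ¬ O.IsMax e := by
  obtain ⟨v, a, c, rfl, rfl, hlt, -⟩ := h
  rw [O.isMax_iff]
  intro hm
  exact absurd hlt (@not_lt_of_ge _ (O i v).toPreorder _ _ (hm c))

lemma Order.succ_not_min (O : B.Order) {i : ℕ} {e e' : B.E i} (h : O.IsSucc e e') :
    ¬ O.IsMin e' := by
  intro hm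
  exact O.rev.succ_not_max (O.rev_succ _ _ h) hm

lemma Order.vershik_rev (O : B.Order) {x y : B.Path} (h : O.Vershik x y) : O.rev.Vershik y x := by
  obtain ⟨n, h1, h2, h3, h4, h5⟩ := h
  exact ⟨n, h5, O.succ_not_min h3, O.rev_succ _ _ h3, fun i hi => (h4 i hi).symm, h1⟩

lemma Order.succ_unique (O : B.Order) {i : ℕ} {e e' e'' : B.E i} (h : O.IsSucc e e')
    (h' : O.IsSucc e e'') : e' = e'' := by
  obtain ⟨v, a, c, ha, rfl, hlt, hno⟩ := h
  obtain ⟨v', a', c', ha', rfl, hlt', hno'⟩ := h'
  have hv : v = v' := by rw [← a.2, ← a'.2, ha, ha']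
  subst hv
  have haa : a = a' := Subtype.ext (ha.trans ha'.symm)
  subst haa
  letI := O i v
  congr 1
  rcases lt_trichotomy c c' with h | h | h
  · exact absurd ⟨hlt, h⟩ (hno' c)
  · exact h
  · exact absurd ⟨hlt', h⟩ (hno c')

lemma Order.min_unique (O : B.Order) {i : ℕ} {e e' : B.E i} (hr : B.r i e = B.r i e')
    (h : O.IsMin e) (h' : O.IsMin e') : e = e' := by
  have h1 := h ⟨e', hr.symm⟩
  have h2 := (O.isMin_iff (⟨e', hr.symm⟩ : {e'' : B.E i // B.r i e'' = B.r i e})).mp h' ⟨e, rfl⟩
  exact congrArg Subtype.val ((O i (B.r i e)).le_antisymm _ _ h1 h2)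

lemma Order.exists_min (O : B.Order) (i : ℕ) (v : B.V (i+1)) : ∃ e, B.r i e = v ∧ O.IsMin e := by
  have : Finite {e : B.E i // B.r i e = v} := B.r_fin i v
  have : Nonempty {e : B.E i // B.r i e = v} := by
    obtain ⟨e, he⟩ := B.r_surj i v
    exact ⟨⟨e, he⟩⟩
  letI := O i v
  obtain ⟨a, ha⟩ := Finite.exists_min (id : {e : B.E i // B.r i e = v} → _)
  exact ⟨a.1, a.2, (O.isMin_iff a).mpr ha⟩

lemma Order.exists_succ (O : B.Order) {i : ℕ} {e : B.E i} (h : ¬ O.IsMax e) :
    ∃ e', O.IsSucc e e' := by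
  have : Finite {e' : B.E i // B.r i e' = B.r i e} := B.r_fin i _
  letI := O i (B.r i e)
  let a : {e' : B.E i // B.r i e' = B.r i e} := ⟨e, rfl⟩
  have h1 : ∃ c, a < c := by
    by_contra hcon
    push Not at hcon
    exact h hcon
  obtain ⟨c, hc, hmin⟩ := Set.exists_min_image {c | a < c} id (Set.toFinite _) h1
  refine ⟨c.1, B.r i e, a, c, rfl, rfl, hc, fun d hd => ?_⟩
  exact absurd hd.2 (not_lt_of_ge (hmin d hd.1))

lemma Order.extendMin (O : B.Order) (n : ℕ) : ∀ x : B.T,
    (∀ i ≥ n, B.r i (x i) = B.s (i+1) (x (i+1))) →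
    ∃ y : B.Path, (∀ i ≥ n, y.1 i = x i) ∧ ∀ i < n, O.IsMin (y.1 i) := by
  classical
  induction n with
  | zero => exact fun x hx => ⟨⟨x, fun i => hx i (Nat.zero_le _)⟩, fun i _ => rfl, fun i hi => by omega⟩
  | succ n ih =>
    intro x hx
    obtain ⟨e, he, hmin⟩ := O.exists_min n (B.s (n+1) (x (n+1)))
    obtain ⟨y, hy1, hy2⟩ := ih (Function.update x n e) (by
      intro i hi
      rcases Nat.eq_or_lt_of_le hi with h | h
      · subst h
        rw [Function.update_self, Function.update_of_ne (by omega)]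
        exact he
      · rw [Function.update_of_ne (by omega), Function.update_of_ne (by omega)]
        exact hx i h)
    refine ⟨y, fun i hi => ?_, fun i hi => ?_⟩
    · rw [hy1 i (by omega), Function.update_of_ne (by omega)]
    · rcases Nat.lt_succ_iff_lt_or_eq.mp hi with h | h
      · exact hy2 i h
      · subst h
        rw [hy1 i le_rfl, Function.update_self]
        exact hmin

lemma Order.vershik_exists (O : B.Order) {x : B.Path} (hx : x ∉ O.Xmax) : ∃ y, O.Vershik x y := by
  classical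
  have hex : ∃ i, ¬ O.IsMax (x.1 i) := by
    by_contra hcon
    push Not at hcon
    exact hx hcon
  obtain ⟨n, hn1, hn2⟩ : ∃ n, ¬ O.IsMax (x.1 n) ∧ ∀ i < n, O.IsMax (x.1 i) :=
    ⟨Nat.find hex, Nat.find_spec hex, fun i hi => not_not.mp (Nat.find_min hex hi)⟩
  obtain ⟨e', he'⟩ := O.exists_succ hn1
  have hr : B.r n e' = B.r n (x.1 n) := by
    obtain ⟨v, a, c, ha, hc, -, -⟩ := he'
    rw [← ha, ← hc, a.2, c.2]
  obtain ⟨y, hy1, hy2⟩ := O.extendMin n (Function.update x.1 n e') (by
    intro i hi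
    rcases Nat.eq_or_lt_of_le hi with h | h
    · subst h
      rw [Function.update_self, Function.update_of_ne (by omega), hr]
      exact x.2 n
    · rw [Function.update_of_ne (by omega), Function.update_of_ne (by omega)]
      exact x.2 i)
  refine ⟨y, n, hn2, hn1, ?_, ?_, hy2⟩
  · rw [hy1 n le_rfl, Function.update_self]; exact he'
  · intro i hi
    rw [hy1 i (le_of_lt hi), Function.update_of_ne (by omega)]

lemma Order.vershik_unique (O : B.Order) {x y y' : B.Path} (h : O.Vershik x y)
    (h' : O.Vershik x y') : y = y' := by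
  obtain ⟨n, h1, h2, h3, h4, h5⟩ := h
  obtain ⟨n', h1', h2', h3', h4', h5'⟩ := h'
  have hnn : n = n' := by
    rcases lt_trichotomy n n' with h | h | h
    · exact absurd (h1' n h) h2
    · exact h
    · exact absurd (h1 n' h) h2'
  subst hnn
  have hn : y.1 n = y'.1 n := O.succ_unique h3 h3'
  have hgt : ∀ i > n, y.1 i = y'.1 i := fun i hi => (h4 i hi).trans (h4' i hi).symm
  have hlt : ∀ j, j ≤ n → y.1 (n - j) = y'.1 (n - j) := by
    intro j
    induction j with
    | zero => intro _; exact hn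
    | succ j ih =>
      intro hj
      have e := ih (by omega)
      obtain ⟨m, hm⟩ : ∃ m, n - (j+1) = m := ⟨_, rfl⟩
      have hm' : n - j = m + 1 := by omega
      rw [hm'] at e
      rw [hm]
      apply O.min_unique _ (h5 m (by omega)) (h5' m (by omega))
      rw [y.2 m, y'.2 m, e]
  apply Subtype.ext
  funext i
  rcases le_or_gt i n with h | h
  · have := hlt (n - i) (by omega)
    rwa [Nat.sub_sub_self h] at this
  · exact hgt i h

lemma Order.vershik_not_max (O : B.Order) {x y : B.Path} (h : O.Vershik x y) : x ∉ O.Xmax := by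
  obtain ⟨n, -, h2, -⟩ := h
  exact fun hx => h2 (hx n)

lemma Order.vershik_not_min (O : B.Order) {x y : B.Path} (h : O.Vershik x y) : y ∉ O.Xmin :=
  O.rev.vershik_not_max (O.vershik_rev h)

/-- the Vershik map off the maximal paths -/
noncomputable def Order.vmap (O : B.Order) (x : (O.Xmaxᶜ : Set B.Path)) :
    (O.Xminᶜ : Set B.Path) :=
  ⟨(O.vershik_exists x.2).choose, O.vershik_not_min (O.vershik_exists x.2).choose_spec⟩

lemma Order.vmap_spec (O : B.Order) (x : (O.Xmaxᶜ : Set B.Path)) : O.Vershik x.1 (O.vmap x).1 :=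
  (O.vershik_exists x.2).choose_spec

lemma Order.continuous_vmap (O : B.Order) : Continuous O.vmap := by
  apply Continuous.subtype_mk
  apply Continuous.subtype_mk
  apply continuous_pi
  intro i
  rw [continuous_iff_continuousAt]
  intro x
  obtain ⟨n, h1, h2, h3, h4, h5⟩ := O.vmap_spec x
  apply (continuousAt_const (y := (O.vmap x).1.1 i)).congr
  have hev : ∀ᶠ x' in 𝓝 x, ∀ j ∈ Finset.range (max n i + 1), x'.1.1 j = x.1.1 j := by
    rw [Filter.eventually_all_finset]
    intro j _
    have hc : Continuous fun x' : (O.Xmaxᶜ : Set B.Path) => x'.1.1 j :=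
      (continuous_apply j).comp (continuous_subtype_val.comp continuous_subtype_val)
    exact hc.continuousAt.eventually ((isOpen_discrete {x.1.1 j}).mem_nhds rfl)
  filter_upwards [hev] with x' hx'
  have hag : ∀ j ≤ max n i, x'.1.1 j = x.1.1 j := fun j hj =>
    hx' j (Finset.mem_range.mpr (by omega))
  -- the image of x'
  obtain ⟨y', hy'⟩ : ∃ y' : B.Path, y'.1 = fun j => if j ≤ n then (O.vmap x).1.1 j else x'.1.1 j := by
    refine ⟨⟨fun j => if j ≤ n then (O.vmap x).1.1 j else x'.1.1 j, ?_⟩, rfl⟩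
    intro j
    simp only
    rcases lt_trichotomy j n with h | h | h
    · rw [if_pos h.le, if_pos (by omega)]
      exact (O.vmap x).1.2 j
    · subst h
      rw [if_pos le_rfl, if_neg (by omega)]
      have e1 := x'.1.2 j
      have e2 : B.r j ((O.vmap x).1.1 j) = B.r j (x'.1.1 j) := by
        rw [hag j (le_max_left _ _)]
        obtain ⟨v, a, c, ha, hc, -, -⟩ := h3
        rw [← ha, ← hc, a.2, c.2]
      rw [e2, e1]
    · rw [if_neg (by omega), if_neg (by omega)]
      exact x'.1.2 j
  have hV : O.Vershik x'.1 y' := by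
    refine ⟨n, ?_, ?_, ?_, ?_, ?_⟩
    · intro j hj
      rw [hag j (by omega)]; exact h1 j hj
    · rw [hag n (le_max_left _ _)]; exact h2
    · rw [hag n (le_max_left _ _), hy']
      simp only [le_refl, if_true]
      exact h3
    · intro j hj
      rw [hy']
      simp only
      rw [if_neg (by omega)]
    · intro j hj
      rw [hy']
      simp only
      rw [if_pos hj.le]
      exact h5 j hj
  have huniq := O.vershik_unique (O.vmap_spec x') hV
  show (O.vmap x).1.1 i = (O.vmap x').1.1 i
  rw [huniq, hy']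
  simp only
  split_ifs with h
  · rfl
  · rw [h4 i (by omega), hag i (le_max_right _ _)]

lemma Order.vmap_rev (O : B.Order) (x : (O.Xmaxᶜ : Set B.Path)) :
    (O.rev.vmap (O.vmap x)).1 = x.1 :=
  O.rev.vershik_unique (O.rev.vmap_spec (O.vmap x)) (O.vershik_rev (O.vmap_spec x))

/-- the Vershik map as a homeomorphism from the non-maximal to the non-minimal paths -/
noncomputable def Order.vhomeo (O : B.Order) :
    (O.Xmaxᶜ : Set B.Path) ≃ₜ (O.Xminᶜ : Set B.Path) where
  toFun := O.vmap
  invFun := O.rev.vmap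
  left_inv := fun x => Subtype.ext (O.vmap_rev x)
  right_inv := fun y => Subtype.ext (O.rev.vmap_rev y)
  continuous_toFun := O.continuous_vmap
  continuous_invFun := O.rev.continuous_vmap

instance : BorelSpace B.Path := inferInstance

instance : StandardBorelSpace B.Path := by
  have hcl : IsClosed {x : B.T | ∀ i, B.r i (x i) = B.s (i+1) (x (i+1))} := by
    have : {x : B.T | ∀ i, B.r i (x i) = B.s (i+1) (x (i+1))} =
        ⋂ i, (fun x : B.T => (x i, x (i+1))) ⁻¹'
        {q : B.E i × B.E (i+1) | B.r i q.1 = B.s (i+1) q.2} := by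
      ext x; simp
    rw [this]
    apply isClosed_iInter
    intro i
    apply IsClosed.preimage
    · fun_prop
    · exact isClosed_discrete _
  exact hcl.measurableSet.standardBorel

lemma Order.isClosed_Xmax (O : B.Order) : IsClosed O.Xmax := by
  have : O.Xmax = ⋂ i, (fun x : B.Path => x.1 i) ⁻¹' {e | O.IsMax e} := by
    ext x; simp [Order.Xmax]
  rw [this]
  apply isClosed_iInter
  intro i
  apply IsClosed.preimage
  · exact (continuous_apply i).comp continuous_subtype_val
  · exact isClosed_discrete _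

lemma Order.isClosed_Xmin (O : B.Order) : IsClosed O.Xmin := O.rev.isClosed_Xmax

end Diagram

/-- Every generalized Bratteli diagram admits an order that generates a Borel Vershik map: there
is a Borel bijection `F` (measurable equivalence) of the path space onto itself which agrees with
the Vershik map on all non-maximal paths. The path space carries the subspace topology of the
product of the discrete spaces `B.E i`, that is, the cylinder topology, and its Borel sigma-algebra
(instance `BorelSpace B.Path` above). -/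
theorem result (B : Diagram) : ∃ (O : B.Order) (F : B.Path ≃ᵐ B.Path),
    ∀ x ∉ O.Xmax, O.Vershik x (F x) := by
  classical
  obtain ⟨O, ⟨e⟩⟩ := B.exists_good_order
  have i1 : StandardBorelSpace O.Xmax := O.isClosed_Xmax.measurableSet.standardBorel
  have i2 : StandardBorelSpace O.Xmin := O.isClosed_Xmin.measurableSet.standardBorel
  let e1 : O.Xmax ≃ᵐ O.Xmin := PolishSpace.Equiv.measurableEquiv e
  let e2 : (O.Xmaxᶜ : Set B.Path) ≃ᵐ (O.Xminᶜ : Set B.Path) := O.vhomeo.toMeasurableEquiv
  refine ⟨O, (MeasurableEquiv.sumCompl O.isClosed_Xmax.measurableSet).symm.trans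
    ((MeasurableEquiv.sumCongr e1 e2).trans
      (MeasurableEquiv.sumCompl O.isClosed_Xmin.measurableSet)), ?_⟩
  intro x hx
  have h1 : (MeasurableEquiv.sumCompl O.isClosed_Xmax.measurableSet).symm x
      = Sum.inr ⟨x, hx⟩ := by
    rw [MeasurableEquiv.symm_apply_eq]
    rfl
  show O.Vershik x ((MeasurableEquiv.sumCompl O.isClosed_Xmin.measurableSet)
    ((MeasurableEquiv.sumCongr e1 e2)
      ((MeasurableEquiv.sumCompl O.isClosed_Xmax.measurableSet).symm x)))
  rw [h1]
  exact O.vmap_spec ⟨x, hx⟩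

end Pool.Agent.Results.MP_f8f5a4_an.BorelVershik
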